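import Pool.Agent.H211.HY.Stm1

/-! HY211 DER: derivative formulas in the charts. -/

set_option autoImplicit false

open Topology Filter Metric Set MeasureTheory Polynomial

namespace Pool.Agent.H921.HY211

open Pool.Agent.H790R3.RB Pool.Agent.H211.HY

variable {d : ℕ}

/-- the forms -/
noncomputable def B (x : CV d) (i : Fin 2) (p : ℂ × ℂ) : ℂ :=
  ∑ j : Fin (d + 1), x (i, j) * (p.1 ^ (j : ℕ) * p.2 ^ (d - (j : ℕ)))

/-- the first partial derivative -/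
noncomputable def A1 (x : CV d) (i : Fin 2) (p : ℂ × ℂ) : ℂ :=
  ∑ j : Fin (d + 1), x (i, j) * (((j : ℕ) : ℂ) * p.1 ^ ((j : ℕ) - 1) * p.2 ^ (d - (j : ℕ)))

/-- the second partial derivative -/
noncomputable def A2 (x : CV d) (i : Fin 2) (p : ℂ × ℂ) : ℂ :=
  ∑ j : Fin (d + 1), x (i, j) * (((d - (j : ℕ) : ℕ) : ℂ) * p.1 ^ (j : ℕ) * p.2 ^ (d - (j : ℕ) - 1))

theorem hF_eq (x : CV d) (p : ℂ × ℂ) : hF x p = (B x 0 p, B x 1 p) := rfl

theorem wr_eq (x : CV d) (p : ℂ × ℂ) : wr x p = A1 x 0 p * A2 x 1 p - A2 x 0 p * A1 x 1 p := rfl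

theorem euler (x : CV d) (i : Fin 2) (p : ℂ × ℂ) :
    (d : ℂ) * B x i p = p.1 * A1 x i p + p.2 * A2 x i p := by
  unfold B A1 A2
  rw [Finset.mul_sum, Finset.mul_sum, Finset.mul_sum, ← Finset.sum_add_distrib]
  refine Finset.sum_congr rfl fun j _ => ?_
  have hj : (j : ℕ) ≤ d := Nat.lt_succ_iff.1 j.2
  generalize (j : ℕ) = a at hj
  obtain ⟨e, rfl⟩ := Nat.exists_eq_add_of_le hj
  rw [Nat.add_sub_cancel_left]
  rcases Nat.eq_zero_or_pos a with rfl | ha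
  · rcases Nat.eq_zero_or_pos e with rfl | he
    · simp
    · obtain ⟨e', rfl⟩ := Nat.exists_eq_succ_of_ne_zero he.ne'
      simp only [Nat.succ_eq_add_one, Nat.add_sub_cancel]
      push_cast
      ring
  · obtain ⟨a', rfl⟩ := Nat.exists_eq_succ_of_ne_zero ha.ne'
    rcases Nat.eq_zero_or_pos e with rfl | he
    · simp only [Nat.succ_eq_add_one, Nat.add_sub_cancel]
      push_cast
      ring
    · obtain ⟨e', rfl⟩ := Nat.exists_eq_succ_of_ne_zero he.ne'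
      simp only [Nat.succ_eq_add_one, Nat.add_sub_cancel]
      push_cast
      ring

section der

variable {E : Type} [NormedAddCommGroup E] [NormedSpace ℂ E]

theorem derB {X : E → CV d} {X' : E →L[ℂ] CV d} {p₁ p₂ : E → ℂ} {p₁' p₂' : E →L[ℂ] ℂ} {s₀ : E}
    (hX : HasFDerivAt X X' s₀) (h₁ : HasFDerivAt p₁ p₁' s₀) (h₂ : HasFDerivAt p₂ p₂' s₀)
    (i : Fin 2) : ∃ L : E →L[ℂ] ℂ, HasFDerivAt (fun s => B (X s) i (p₁ s, p₂ s)) L s₀ ∧
      ∀ b, L b = A1 (X s₀) i (p₁ s₀, p₂ s₀) * p₁' b + A2 (X s₀) i (p₁ s₀, p₂ s₀) * p₂' b +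
        B (X' b) i (p₁ s₀, p₂ s₀) := by
  have h : ∀ j : Fin (d + 1), HasFDerivAt
      (fun s => X s (i, j) * (p₁ s ^ (j : ℕ) * p₂ s ^ (d - (j : ℕ)))) _ s₀ := fun j =>
    ((hasFDerivAt_pi'.1 hX) (i, j)).mul ((h₁.pow (j : ℕ)).mul (h₂.pow (d - (j : ℕ))))
  refine ⟨_, HasFDerivAt.fun_sum fun j _ => h j, fun b => ?_⟩
  unfold A1 A2 B
  rw [Finset.sum_mul, Finset.sum_mul, ← Finset.sum_add_distrib, ← Finset.sum_add_distrib,
    _root_.sum_apply]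
  refine Finset.sum_congr rfl fun j _ => ?_
  simp only [_root_.add_apply, _root_.smul_apply, smul_eq_mul,
    ContinuousLinearMap.comp_apply, ContinuousLinearMap.proj_apply, nsmul_eq_mul]
  ring

theorem derq {U V : E → ℂ} {LU LV : E →L[ℂ] ℂ} {s₀ : E} (hU : HasFDerivAt U LU s₀)
    (hV : HasFDerivAt V LV s₀) (h0 : V s₀ ≠ 0) : ∃ L : E →L[ℂ] ℂ,
      HasFDerivAt (fun s => U s / V s) L s₀ ∧
      ∀ b, L b = (LU b * V s₀ - U s₀ * LV b) / V s₀ ^ 2 := by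
  have h1 : HasFDerivAt (fun s => (V s)⁻¹) _ s₀ := (hasDerivAt_inv h0).comp_hasFDerivAt s₀ hV
  have h2 : HasFDerivAt (fun s => U s * (V s)⁻¹) _ s₀ := hU.mul h1
  have e : (fun s => U s / V s) = fun s => U s * (V s)⁻¹ := by
    funext s
    rw [div_eq_mul_inv]
  rw [e]
  refine ⟨_, h2, fun b => ?_⟩
  simp only [_root_.add_apply, _root_.smul_apply, smul_eq_mul]
  field_simp
  ring

theorem main {X : E → CV d} {X' : E →L[ℂ] CV d} {p₁ p₂ : E → ℂ} {p₁' p₂' : E →L[ℂ] ℂ} {s₀ : E}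
    (hd : d ≠ 0) (hX : HasFDerivAt X X' s₀) (h₁ : HasFDerivAt p₁ p₁' s₀)
    (h₂ : HasFDerivAt p₂ p₂' s₀) (τ : Bool) (h0 : dn τ (hF (X s₀) (p₁ s₀, p₂ s₀)) ≠ 0) :
    ∃ L : E →L[ℂ] ℂ, HasFDerivAt (fun s => lc τ (hF (X s) (p₁ s, p₂ s))) L s₀ ∧
      ∀ b, L b = sg τ * ((p₁' b * p₂ s₀ - p₂' b * p₁ s₀) * wr (X s₀) (p₁ s₀, p₂ s₀) / (d : ℂ) +
        cr (hF (X' b) (p₁ s₀, p₂ s₀)) (hF (X s₀) (p₁ s₀, p₂ s₀))) /
          dn τ (hF (X s₀) (p₁ s₀, p₂ s₀)) ^ 2 := by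
  obtain ⟨LU, hU, eU⟩ := derB hX h₁ h₂ 0
  obtain ⟨LV, hV, eV⟩ := derB hX h₁ h₂ 1
  have hd' : (d : ℂ) ≠ 0 := Nat.cast_ne_zero.2 hd
  have E0 := euler (X s₀) 0 (p₁ s₀, p₂ s₀)
  have E1 := euler (X s₀) 1 (p₁ s₀, p₂ s₀)
  have key : ∀ b, LU b * B (X s₀) 1 (p₁ s₀, p₂ s₀) - B (X s₀) 0 (p₁ s₀, p₂ s₀) * LV b =
      (p₁' b * p₂ s₀ - p₂' b * p₁ s₀) * wr (X s₀) (p₁ s₀, p₂ s₀) / (d : ℂ) +
        cr (hF (X' b) (p₁ s₀, p₂ s₀)) (hF (X s₀) (p₁ s₀, p₂ s₀)) := by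
    intro b
    rw [hF_eq, hF_eq, wr_eq, eU, eV]
    unfold cr
    have e0 : B (X s₀) 0 (p₁ s₀, p₂ s₀) = (p₁ s₀ * A1 (X s₀) 0 (p₁ s₀, p₂ s₀) +
        p₂ s₀ * A2 (X s₀) 0 (p₁ s₀, p₂ s₀)) / (d : ℂ) := by
      rw [eq_div_iff hd', ← E0, mul_comm]
    have e1 : B (X s₀) 1 (p₁ s₀, p₂ s₀) = (p₁ s₀ * A1 (X s₀) 1 (p₁ s₀, p₂ s₀) +
        p₂ s₀ * A2 (X s₀) 1 (p₁ s₀, p₂ s₀)) / (d : ℂ) := by
      rw [eq_div_iff hd', ← E1, mul_comm]
    simp only [e0, e1]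
    field_simp
    ring
  cases τ with
  | true =>
    obtain ⟨L, hL, eL⟩ := derq hU hV h0
    refine ⟨L, hL, fun b => ?_⟩
    rw [eL b, key b]
    show _ = (1 : ℂ) * _ / _
    rw [one_mul]
    rfl
  | false =>
    obtain ⟨L, hL, eL⟩ := derq hV hU h0
    refine ⟨L, hL, fun b => ?_⟩
    rw [← key b, eL b]
    show _ = (-1 : ℂ) * _ / B (X s₀) 0 (p₁ s₀, p₂ s₀) ^ 2
    congr 1
    ring

end der

theorem hF_zero (p : ℂ × ℂ) : hF (0 : CV d) p = 0 := by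
  unfold hF
  simp

theorem t_DER : S_DER := by
  intro d k τ τ' w hd
  have hd0 : d ≠ 0 := by omega
  refine ⟨fun x h0 => ?_, fun X c b hX hc => ⟨fun h0 => ?_, fun h0 hwr => ?_⟩⟩
  · cases τ with
    | true =>
      obtain ⟨L, hL, eL⟩ := main hd0 (hasFDerivAt_const x w) (hasFDerivAt_id w)
        (hasFDerivAt_const (1 : ℂ) w) τ' h0
      have h1 := hL.hasDerivAt
      rw [eL 1] at h1
      have e : sg true * sg τ' * wr x (iot true w) / ((d : ℂ) * dn τ' (hF x (iot true w)) ^ 2) =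
          sg τ' * (((ContinuousLinearMap.id ℂ ℂ) 1 * 1 - (0 : ℂ →L[ℂ] ℂ) 1 * id w) *
            wr x (id w, 1) / (d : ℂ) +
          cr (hF ((0 : ℂ →L[ℂ] CV d) 1) (id w, 1)) (hF x (id w, 1))) /
          dn τ' (hF x (id w, 1)) ^ 2 := by
        show (1 : ℂ) * sg τ' * wr x (w, 1) / ((d : ℂ) * dn τ' (hF x (w, 1)) ^ 2) = _
        simp only [_root_.zero_apply, hF_zero, cr, id, Prod.fst_zero, Prod.snd_zero,
          ContinuousLinearMap.id_apply]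
        ring
      rw [e]
      exact h1
    | false =>
      obtain ⟨L, hL, eL⟩ := main hd0 (hasFDerivAt_const x w) (hasFDerivAt_const (1 : ℂ) w)
        (hasFDerivAt_id w) τ' h0
      have h1 := hL.hasDerivAt
      rw [eL 1] at h1
      have e : sg false * sg τ' * wr x (iot false w) / ((d : ℂ) * dn τ' (hF x (iot false w)) ^ 2) =
          sg τ' * (((0 : ℂ →L[ℂ] ℂ) 1 * id w - (ContinuousLinearMap.id ℂ ℂ) 1 * 1) *
            wr x (1, id w) / (d : ℂ) +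
          cr (hF ((0 : ℂ →L[ℂ] CV d) 1) (1, id w)) (hF x (1, id w))) /
          dn τ' (hF x (1, id w)) ^ 2 := by
        show (-1 : ℂ) * sg τ' * wr x (1, w) / ((d : ℂ) * dn τ' (hF x (1, w)) ^ 2) = _
        simp only [_root_.zero_apply, hF_zero, cr, id, Prod.fst_zero, Prod.snd_zero,
          ContinuousLinearMap.id_apply]
        ring
      rw [e]
      exact h1
  · obtain ⟨L, hL, eL⟩ := main hd0 hX.hasFDerivAt
      (hasFDerivAt_const (iot τ w).1 (0 : Fin k → ℂ)) (hasFDerivAt_const (iot τ w).2 0) τ' h0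
    have h1 : HasFDerivAt (fun s => GG (X s) τ τ' w) L 0 := hL
    rw [h1.fderiv, eL b]
    simp only [_root_.zero_apply]
    rw [zero_mul, zero_mul, sub_zero, zero_mul, zero_div, zero_add]
  · obtain ⟨L, hL, eL⟩ := main hd0 hX.hasFDerivAt hc.hasFDerivAt
      (hasFDerivAt_const (1 : ℂ) (0 : Fin k → ℂ)) τ' h0
    have h1 : HasFDerivAt (fun s => lc τ' (hF (X s) (c s, 1))) L 0 := hL
    rw [h1.fderiv, eL b, hwr, mul_zero, zero_div, zero_add]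

end Pool.Agent.H921.HY211
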